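import Pool.Agent.Helper96.QT.Def

/-!
Block QT9a.  Properties of the Gaussian mean `bb d F`: continuity, integrability against `1 / (1 + u^2)` and against
exponentials, the transform, and the one sided upper limit.
-/

namespace Pool.Agent.QT

open Real Filter Topology MeasureTheory Set

/-! ### basic facts of the kernel -/

private lemma gk_eq58 {d : ℝ} (y : ℝ) :
    gk d y = (d * Real.sqrt (2 * π))⁻¹ * Real.exp (-(1 / (2 * d ^ 2)) * y ^ 2) := by
  unfold gk
  congr 2
  ring

private lemma gk_pos58 {d : ℝ} (hd : 0 < d) (y : ℝ) : 0 < gk d y := by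
  unfold gk
  have : 0 < Real.sqrt (2 * π) := Real.sqrt_pos.2 (by positivity)
  positivity

private lemma gk_cont58 (d : ℝ) : Continuous (gk d) := by
  unfold gk
  fun_prop

private lemma sqrt58 {d : ℝ} (hd : 0 < d) : Real.sqrt (π / (1 / (2 * d ^ 2))) = d * Real.sqrt (2 * π) := by
  rw [show π / (1 / (2 * d ^ 2)) = d ^ 2 * (2 * π) by field_simp, Real.sqrt_mul (by positivity), Real.sqrt_sq hd.le]

private lemma gk_int58 {d : ℝ} (hd : 0 < d) : Integrable (gk d) ∧ ∫ t : ℝ, gk d t = 1 := by
  have hb : 0 < 1 / (2 * d ^ 2) := by positivity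
  have he : gk d = fun y => (d * Real.sqrt (2 * π))⁻¹ * Real.exp (-(1 / (2 * d ^ 2)) * y ^ 2) := funext fun y => gk_eq58 y
  rw [he]
  refine ⟨(integrable_exp_neg_mul_sq hb).const_mul _, ?_⟩
  rw [integral_const_mul, integral_gaussian, sqrt58 hd]
  have : 0 < Real.sqrt (2 * π) := Real.sqrt_pos.2 (by positivity)
  field_simp

/-- the transform of the kernel -/
private lemma gk_tr58 {d : ℝ} (hd : 0 < d) (z : ℂ) :
    Integrable (fun y : ℝ => Complex.exp (-z * y) * (gk d y : ℂ)) ∧
      ∫ y : ℝ, Complex.exp (-z * y) * (gk d y : ℂ) = Complex.exp ((d : ℂ) ^ 2 * z ^ 2 / 2) := by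
  have hdc : (d : ℂ) ≠ 0 := by exact_mod_cast hd.ne'
  have hs : 0 < Real.sqrt (2 * π) := Real.sqrt_pos.2 (by positivity)
  have hb : 0 < 1 / (2 * d ^ 2) := by positivity
  have hbc : (-(1 / (2 * (d : ℂ) ^ 2))).re < 0 := by
    have : -(1 / (2 * (d : ℂ) ^ 2)) = ((-(1 / (2 * d ^ 2)) : ℝ) : ℂ) := by push_cast; ring
    rw [this, Complex.ofReal_re]
    linarith
  have he : (fun y : ℝ => Complex.exp (-z * y) * (gk d y : ℂ)) = fun y : ℝ =>
      (((d * Real.sqrt (2 * π))⁻¹ : ℝ) : ℂ) * Complex.exp (-(1 / (2 * (d : ℂ) ^ 2)) * (y : ℂ) ^ 2 + -z * y + 0) := by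
    funext y
    rw [gk_eq58]
    push_cast
    rw [add_zero, Complex.exp_add]
    ring
  rw [he]
  refine ⟨(integrable_cexp_quadratic' hbc _ _).const_mul _, ?_⟩
  rw [integral_const_mul, integral_cexp_quadratic hbc]
  have h1 : ((π : ℂ) / -(-(1 / (2 * (d : ℂ) ^ 2)))) ^ (1 / 2 : ℂ) = ((d * Real.sqrt (2 * π) : ℝ) : ℂ) := by
    rw [← sqrt58 hd, Real.sqrt_eq_rpow, Complex.ofReal_cpow (by positivity)]
    push_cast
    rw [neg_neg]
  rw [h1, ← mul_assoc, ← Complex.ofReal_mul, inv_mul_cancel₀ (by positivity), Complex.ofReal_one, one_mul]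
  congr 1
  field_simp
  ring

/-- the kernel against exponentials -/
private lemma gk_exp58 {d : ℝ} (hd : 0 < d) (x : ℝ) : Integrable (fun y : ℝ => Real.exp (-(x * y)) * gk d y) := by
  have h := (gk_tr58 hd (x : ℂ)).1.norm
  refine h.congr (Eventually.of_forall fun y => ?_)
  simp only [norm_mul, Complex.norm_exp, Complex.norm_real, Real.norm_eq_abs, abs_of_pos (gk_pos58 hd y)]
  congr 2
  rw [← Complex.ofReal_neg, ← Complex.ofReal_mul, Complex.ofReal_re]
  ring

/-- the kernel against `1 + y^2` -/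
private lemma gk_sq58 {d : ℝ} (hd : 0 < d) : Integrable (fun y : ℝ => 2 * (1 + y ^ 2) * gk d y) := by
  have h1 := gk_exp58 hd 1
  have h2 := gk_exp58 hd (-1)
  have h3 := (h1.add h2).const_mul 4
  refine h3.mono' ((by fun_prop : Continuous fun y : ℝ => 2 * (1 + y ^ 2)).mul (gk_cont58 d)).aestronglyMeasurable
    (Eventually.of_forall fun y => ?_)
  have hg := gk_pos58 hd y
  rw [Real.norm_eq_abs, abs_of_nonneg (by positivity)]
  simp only [Pi.add_apply]
  have h4 : 1 + y ^ 2 ≤ 2 * (Real.exp (-(1 * y)) + Real.exp (-(-1 * y))) := by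
    have h5 : ∀ s : ℝ, 0 ≤ s → 1 + s ^ 2 ≤ 2 * Real.exp s := by
      intro s hs
      have := Real.quadratic_le_exp_of_nonneg hs
      nlinarith
    rcases le_total 0 y with h | h
    · have := h5 y h
      have h6 : Real.exp (-(-1 * y)) = Real.exp y := by congr 1; ring
      rw [h6]
      have := Real.exp_pos (-(1 * y))
      linarith
    · have := h5 (-y) (by linarith)
      have h6 : Real.exp (-(1 * y)) = Real.exp (-y) := by congr 1; ring
      rw [h6]
      have := Real.exp_pos (-(-1 * y))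
      nlinarith
  nlinarith


/-- the key: a weight that is dominated by a product of a function of `t` and a function of `u - t` -/
private lemma key58 {F : ℝ → ℝ} (hm : Measurable F) {d : ℝ} {om v c : ℝ → ℝ} (ho : Continuous om)
    (hv : Integrable (fun t => F t * v t)) (hc : Integrable (fun y => c y * gk d y))
    (h : ∀ u t : ℝ, |om u| ≤ c (u - t) * v t) (hv0 : ∀ t, 0 ≤ v t) (hc0 : ∀ y, 0 ≤ c y) :
    Integrable (fun p : ℝ × ℝ => om p.1 * (F p.2 * gk d (p.1 - p.2))) (volume.prod volume) := by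
  have h1 := hv.convolution_integrand (ContinuousLinearMap.mul ℝ ℝ) hc
  refine h1.mono ?_ (Eventually.of_forall fun p => ?_)
  · refine Measurable.aestronglyMeasurable ?_
    refine (ho.measurable.comp measurable_fst).mul ((hm.comp measurable_snd).mul ?_)
    exact (gk_cont58 d).measurable.comp (measurable_fst.sub measurable_snd)
  · simp only [ContinuousLinearMap.mul_apply', norm_mul, Real.norm_eq_abs]
    rw [abs_of_nonneg (hv0 p.2), abs_of_nonneg (hc0 _)]
    have := h p.1 p.2
    have hg := abs_nonneg (gk d (p.1 - p.2))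
    have hF := abs_nonneg (F p.2)
    calc |om p.1| * (|F p.2| * |gk d (p.1 - p.2)|) ≤ (c (p.1 - p.2) * v p.2) * (|F p.2| * |gk d (p.1 - p.2)|) := by
          gcongr
      _ = _ := by ring

/-- the dominating function for the Gaussian mean near `u₀` -/
private lemma dom58 {F : ℝ → ℝ} (hF : ∀ t, |F t| ≤ Real.exp (t / 2)) {d : ℝ} (hd : 0 < d) (u₀ : ℝ) :
    ∃ B : ℝ → ℝ, Integrable B ∧ ∀ u : ℝ, |u - u₀| < 1 → ∀ t : ℝ, ‖F t * gk d (u - t)‖ ≤ B t := by
  set A := (d * Real.sqrt (2 * π))⁻¹ with hA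
  have hs : 0 < Real.sqrt (2 * π) := Real.sqrt_pos.2 (by positivity)
  have hA0 : 0 < A := by positivity
  refine ⟨fun t => A * Real.exp (1 / (2 * d ^ 2)) * Real.exp (-(1 / (4 * d ^ 2)) * (u₀ - t) ^ 2 + t / 2), ?_, ?_⟩
  · refine Integrable.const_mul ?_ _
    have h1 : (fun t : ℝ => Real.exp (-(1 / (4 * d ^ 2)) * (u₀ - t) ^ 2 + t / 2)) = fun t : ℝ =>
        ‖Complex.exp (((-(1 / (4 * d ^ 2)) : ℝ) : ℂ) * (t : ℂ) ^ 2 + ((1 / (4 * d ^ 2) * (2 * u₀) + 1 / 2 : ℝ) : ℂ) * t +
          ((-(1 / (4 * d ^ 2)) * u₀ ^ 2 : ℝ) : ℂ))‖ := by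
      funext t
      rw [Complex.norm_exp]
      congr 1
      have : (((-(1 / (4 * d ^ 2)) : ℝ) : ℂ) * (t : ℂ) ^ 2 + ((1 / (4 * d ^ 2) * (2 * u₀) + 1 / 2 : ℝ) : ℂ) * t +
          ((-(1 / (4 * d ^ 2)) * u₀ ^ 2 : ℝ) : ℂ)) = ((-(1 / (4 * d ^ 2)) * t ^ 2 +
          (1 / (4 * d ^ 2) * (2 * u₀) + 1 / 2) * t + -(1 / (4 * d ^ 2)) * u₀ ^ 2 : ℝ) : ℂ) := by push_cast; ring
      rw [this, Complex.ofReal_re]
      ring
    rw [h1]
    refine (integrable_cexp_quadratic' ?_ _ _).norm
    rw [Complex.ofReal_re]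
    have : 0 < 1 / (4 * d ^ 2) := by positivity
    linarith
  · intro u hu t
    rw [norm_mul, Real.norm_eq_abs, Real.norm_eq_abs, abs_of_pos (gk_pos58 hd _)]
    have h2 : gk d (u - t) ≤ A * Real.exp (1 / (2 * d ^ 2)) * Real.exp (-(1 / (4 * d ^ 2)) * (u₀ - t) ^ 2) := by
      rw [gk_eq58, mul_assoc, ← Real.exp_add]
      have h3 : -(1 / (2 * d ^ 2)) * (u - t) ^ 2 ≤ 1 / (2 * d ^ 2) + -(1 / (4 * d ^ 2)) * (u₀ - t) ^ 2 := by
        have h4 : (u₀ - t) ^ 2 ≤ 2 * (u - t) ^ 2 + 2 := by
          have h5 : (u - u₀) ^ 2 ≤ 1 := by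
            have := abs_lt.1 hu
            nlinarith
          nlinarith [sq_nonneg ((u - t) + (u - u₀))]
        have h6 : 0 < 1 / (4 * d ^ 2) := by positivity
        have h7 : 1 / (2 * d ^ 2) = 2 * (1 / (4 * d ^ 2)) := by field_simp; norm_num
        rw [h7]
        nlinarith
      gcongr
    calc |F t| * gk d (u - t) ≤ Real.exp (t / 2) * (A * Real.exp (1 / (2 * d ^ 2)) *
          Real.exp (-(1 / (4 * d ^ 2)) * (u₀ - t) ^ 2)) := by
          gcongr
          · exact (gk_pos58 hd _).le
          · exact hF t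
      _ = _ := by simp only [Real.exp_add]; ring

private lemma meas58 {F : ℝ → ℝ} (hm : Measurable F) (d u : ℝ) : Measurable (fun t => F t * gk d (u - t)) :=
  hm.mul ((gk_cont58 d).measurable.comp (measurable_const.sub measurable_id))

private lemma int58 {F : ℝ → ℝ} (hm : Measurable F) (hF : ∀ t, |F t| ≤ Real.exp (t / 2)) {d : ℝ} (hd : 0 < d) (u : ℝ) :
    Integrable (fun t => F t * gk d (u - t)) := by
  obtain ⟨B, hB, h⟩ := dom58 hF hd u
  exact hB.mono' (meas58 hm d u).aestronglyMeasurable (Eventually.of_forall (h u (by simp)))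

private lemma cont58 {F : ℝ → ℝ} (hm : Measurable F) (hF : ∀ t, |F t| ≤ Real.exp (t / 2)) {d : ℝ} (hd : 0 < d) :
    Continuous (bb d F) := by
  rw [continuous_iff_continuousAt]
  intro u₀
  unfold bb
  obtain ⟨B, hB, h⟩ := dom58 hF hd u₀
  refine continuousAt_of_dominated (bound := B) ?_ ?_ hB ?_
  · exact Eventually.of_forall fun u => (meas58 hm d u).aestronglyMeasurable
  · have h1 : ∀ᶠ u : ℝ in 𝓝 u₀, |u - u₀| < 1 := by
      have := Metric.ball_mem_nhds u₀ one_pos
      filter_upwards [this] with u hu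
      simpa [Real.dist_eq] using hu
    filter_upwards [h1] with u hu
    exact Eventually.of_forall (h u hu)
  · refine Eventually.of_forall fun t => ?_
    exact continuousAt_const.mul (((gk_cont58 d).comp (continuous_id.sub continuous_const)).continuousAt)

private lemma lim58 {F : ℝ → ℝ} (hF : ∀ t, |F t| ≤ Real.exp (t / 2))
    {d : ℝ} (hd : 0 < d) (hFg : ∀ u, Integrable (fun t => F t * gk d (u - t))) (σ C η : ℝ) (hη : 0 < η)
    (hc : ∃ t₁ : ℝ, ∀ t, t₁ ≤ t → σ * F t ≤ C) : ∀ᶠ u in atTop, σ * bb d F u ≤ C + η := by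
  obtain ⟨t₁, ht⟩ := hc
  set M := |σ| * Real.exp (t₁ / 2) + |C| with hM
  have hM0 : 0 ≤ M := by positivity
  have hgi := fun u => (gk_int58 hd).1.comp_sub_left u
  -- the tail tends to zero
  have h1 : Tendsto (fun u : ℝ => ∫ y : ℝ, M * (Ioi (u - t₁)).indicator (gk d) y) atTop (𝓝 (∫ _y : ℝ, (0:ℝ))) := by
    refine tendsto_integral_filter_of_dominated_convergence (fun y => M * gk d y) ?_ ?_ ((gk_int58 hd).1.const_mul M) ?_
    · refine Eventually.of_forall fun u => ?_
      exact (((gk_cont58 d).measurable.indicator measurableSet_Ioi).const_mul M).aestronglyMeasurable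
    · refine Eventually.of_forall fun u => Eventually.of_forall fun y => ?_
      have := (gk_pos58 hd y).le
      rw [Real.norm_eq_abs, abs_mul, abs_of_nonneg hM0]
      refine mul_le_mul_of_nonneg_left ?_ hM0
      by_cases hy : y ∈ Ioi (u - t₁)
      · rw [indicator_of_mem hy, abs_of_nonneg this]
      · rw [indicator_of_notMem hy, abs_zero]; exact this
    · refine Eventually.of_forall fun y => ?_
      refine tendsto_const_nhds.congr' ?_
      filter_upwards [eventually_ge_atTop (y + t₁)] with u hu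
      rw [indicator_of_notMem (by simp only [mem_Ioi, not_lt]; linarith), mul_zero]
  rw [integral_zero] at h1
  filter_upwards [h1.eventually (gt_mem_nhds hη)] with u hu
  -- write the difference
  have h2 : σ * bb d F u - C = ∫ t : ℝ, (σ * F t - C) * gk d (u - t) := by
    have h3 : (fun t : ℝ => (σ * F t - C) * gk d (u - t)) = fun t => σ * (F t * gk d (u - t)) - C * gk d (u - t) := by
      funext t; ring
    rw [h3, integral_sub ((hFg u).const_mul σ) ((hgi u).const_mul C), integral_const_mul, integral_const_mul]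
    rw [integral_sub_left_eq_self (gk d) volume u, (gk_int58 hd).2]
    unfold bb
    ring
  have h4 : ∫ t : ℝ, (σ * F t - C) * gk d (u - t) ≤ ∫ t : ℝ, M * (Ioi (u - t₁)).indicator (gk d) (u - t) := by
    refine integral_mono ?_ ?_ fun t => ?_
    · have h3 : (fun t : ℝ => (σ * F t - C) * gk d (u - t)) = fun t => σ * (F t * gk d (u - t)) - C * gk d (u - t) := by
        funext t; ring
      rw [h3]
      exact ((hFg u).const_mul σ).sub ((hgi u).const_mul C)
    · exact (((gk_int58 hd).1.indicator measurableSet_Ioi).const_mul M).comp_sub_left u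
    · have hg := (gk_pos58 hd (u - t)).le
      by_cases hy : u - t ∈ Ioi (u - t₁)
      · simp only [indicator_of_mem hy]
        refine mul_le_mul_of_nonneg_right ?_ hg
        have ht1 : t < t₁ := by simpa using hy
        have h5 : |F t| ≤ Real.exp (t₁ / 2) := (hF t).trans (Real.exp_le_exp.2 (by linarith))
        calc σ * F t - C ≤ |σ * F t| + |C| := by
              have := le_abs_self (σ * F t)
              have := neg_abs_le C
              linarith
          _ ≤ M := by
              rw [abs_mul, hM]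
              gcongr
      · simp only [indicator_of_notMem hy, mul_zero]
        have ht1 : t₁ ≤ t := by
          simp only [mem_Ioi, not_lt] at hy
          linarith
        have := ht t ht1
        exact mul_nonpos_of_nonpos_of_nonneg (by linarith) hg
  rw [integral_sub_left_eq_self (fun y => M * (Ioi (u - t₁)).indicator (gk d) y) volume u] at h4
  linarith

theorem b_props {F : ℝ → ℝ} (hm : Measurable F) (h0 : ∀ t < 0, F t = 0) (hF : ∀ t, |F t| ≤ Real.exp (t / 2))
    (hFi : ∀ x : ℝ, 0 < x → Integrable (fun t : ℝ => Real.exp (-(x * t)) * F t))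
    (hFw : Integrable (fun t : ℝ => F t * (1 + t ^ 2)⁻¹)) {d : ℝ} (hd : 0 < d) :
    Continuous (bb d F) ∧ Integrable (fun u : ℝ => bb d F u * (1 + u ^ 2)⁻¹) ∧
      (∀ x : ℝ, 0 < x → Integrable (fun u : ℝ => Real.exp (-(x * u)) * bb d F u)) ∧
      (∀ z : ℂ, 0 < z.re → ∫ u : ℝ, Complex.exp (-z * u) * (bb d F u : ℂ) =
        Complex.exp ((d : ℂ) ^ 2 * z ^ 2 / 2) * ∫ t : ℝ, Complex.exp (-z * t) * (F t : ℂ)) ∧
      ∀ σ C η : ℝ, 0 < η → (∃ t₁ : ℝ, ∀ t, t₁ ≤ t → σ * F t ≤ C) → ∀ᶠ u in atTop, σ * bb d F u ≤ C + η := by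
  have hsw : ∀ (om : ℝ → ℝ) (u : ℝ), ∫ t : ℝ, om u * (F t * gk d (u - t)) = om u * bb d F u := by
    intro om u
    rw [integral_const_mul]
    rfl
  refine ⟨cont58 hm hF hd, ?_, ?_, ?_, ?_⟩
  · -- weight (1+u^2)^{-1}
    have h1 := key58 hm (om := fun u => (1 + u ^ 2)⁻¹) (v := fun t => (1 + t ^ 2)⁻¹) (c := fun y => 2 * (1 + y ^ 2))
      (by
        refine Continuous.inv₀ (by fun_prop) fun u => ?_
        positivity) hFw (gk_sq58 hd)
      (fun u t => by
        rw [abs_of_nonneg (by positivity)]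
        rw [← div_eq_mul_inv, inv_eq_one_div, div_le_div_iff₀ (by positivity) (by positivity)]
        nlinarith [sq_nonneg (u - 2 * (u - t)), sq_nonneg (u * (u - t)), sq_nonneg u, sq_nonneg (u - t)])
      (fun t => by positivity) (fun y => by positivity)
    have h2 := h1.integral_prod_left
    refine h2.congr (Eventually.of_forall fun u => ?_)
    simp only
    rw [hsw (fun u => (1 + u ^ 2)⁻¹) u, mul_comm]
  · intro x hx
    have h1 := key58 hm (om := fun u => Real.exp (-(x * u))) (v := fun t => Real.exp (-(x * t)))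
      (c := fun y => Real.exp (-(x * y))) (by fun_prop) ((hFi x hx).congr (Eventually.of_forall fun t => mul_comm _ _))
      (gk_exp58 hd x)
      (fun u t => by
        rw [abs_of_pos (Real.exp_pos _), ← Real.exp_add]
        exact le_of_eq (by congr 1; ring))
      (fun t => (Real.exp_pos _).le) (fun y => (Real.exp_pos _).le)
    have h2 := h1.integral_prod_left
    refine h2.congr (Eventually.of_forall fun u => ?_)
    simp only
    rw [hsw (fun u => Real.exp (-(x * u))) u]
  · intro z hz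
    have hf : Integrable (fun t : ℝ => Complex.exp (-z * t) * (F t : ℂ)) := by
      refine (hFi z.re hz).norm.mono' ?_ (Eventually.of_forall fun t => ?_)
      · exact ((by fun_prop : Measurable fun t : ℝ => Complex.exp (-z * t)).mul
          (Complex.measurable_ofReal.comp hm)).aestronglyMeasurable
      · rw [norm_mul, norm_mul, Complex.norm_exp, Complex.norm_real]
        refine mul_le_mul_of_nonneg_right ?_ (norm_nonneg _)
        rw [Real.norm_eq_abs, abs_of_pos (Real.exp_pos _)]
        refine le_of_eq ?_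
        congr 1
        simp
    have h1 := integral_convolution (ContinuousLinearMap.mul ℂ ℂ) hf (gk_tr58 hd z).1
    rw [(gk_tr58 hd z).2] at h1
    simp only [ContinuousLinearMap.mul_apply'] at h1
    rw [mul_comm, ← h1]
    refine integral_congr_ae (Eventually.of_forall fun u => ?_)
    simp only [convolution, ContinuousLinearMap.mul_apply']
    unfold bb
    rw [← integral_complex_ofReal, ← integral_const_mul]
    refine integral_congr_ae (Eventually.of_forall fun t => ?_)
    simp only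
    have h2 : Complex.exp (-z * u) = Complex.exp (-z * t) * Complex.exp (-z * ((u - t : ℝ) : ℂ)) := by
      rw [← Complex.exp_add]
      congr 1
      push_cast
      ring
    rw [h2]
    push_cast
    ring
  · intro σ C η hη hc
    exact lim58 hF hd (int58 hm hF hd) σ C η hη hc

end Pool.Agent.QT
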